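import Pool.Agent.Helper70_ls.DetDefs
import Pool.Agent.Helper70_rk2.ERel

/-!
# Antisymmetrised external products
-/

open CategoryTheory AlgebraicGeometry

universe u v

namespace Pool.Agent.Helper70Ls

open Pool.Agent.H914 Pool.Agent.H914.VarClass Pool.Agent.H914.VarClass.Obj
  Pool.Agent.H914.WeilCohomology Pool.Agent.Helper70Rk

variable {k : Type u} [Field k] {𝒱 : VarClass k} {ops : CycleOps 𝒱}
  {W : WeilCohomology.{u, v} ops} {X Y Z : 𝒱.Obj}

/-- The square of the determinant line is algebraic. -/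
def DetSquareAlgebraic (W : WeilCohomology.{u, v} ops) (X : 𝒱.Obj) (i : ℕ) : Prop :=
  ∀ (n : ℕ) (v : Fin (n + 1) → W.H X), IsBasisOf W X i n v →
    W.map (fst (pow X n) (pow X n)) (detClass W n v) *
      W.map (snd (pow X n) (pow X n)) (detClass W n v) ∈
        spanCycles W ((pow X n).prod (pow X n)) ((i * (n + 1) : ℕ) : ℤ)

/-- The determinant line is algebraic. -/
def DetAlgebraic (W : WeilCohomology.{u, v} ops) (X : 𝒱.Obj) (i : ℕ) : Prop :=
  ∀ (n : ℕ) (v : Fin (n + 1) → W.H X), IsBasisOf W X i n v →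
    ∃ p : ℕ, i * (n + 1) = 2 * p ∧ detClass W n v ∈ spanCycles W (pow X n) p

/-- The projections. -/
noncomputable def pr (X : 𝒱.Obj) : ∀ n : ℕ, Fin (n + 1) → (pow X n ⟶ X)
  | 0, _ => 𝟙 X
  | n + 1, j => Fin.lastCases (motive := fun _ => (pow X (n + 1) ⟶ X)) (snd (pow X n) X)
      (fun i => fst (pow X n) X ≫ pr X n i) j

lemma pr_last (n : ℕ) :
    pr X (n + 1) (Fin.last (n + 1)) = (snd (pow X n) X : (pow X n).prod X ⟶ X) := by
  simp [pr]

lemma pr_castSucc (n : ℕ) (j : Fin (n + 1)) :
    pr X (n + 1) j.castSucc = (fst (pow X n) X ≫ pr X n j : (pow X n).prod X ⟶ X) := by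
  simp only [pr, Fin.lastCases_castSucc]
  rfl

/-- Families of morphisms. -/
noncomputable def lifts : ∀ n : ℕ, (Fin (n + 1) → (Y ⟶ X)) → (Y ⟶ pow X n)
  | 0, f => f 0
  | n + 1, f => Obj.lift (lifts n fun j => f j.castSucc) (f (Fin.last (n + 1)))

lemma lifts_pr (n : ℕ) (f : Fin (n + 1) → (Y ⟶ X)) (j : Fin (n + 1)) :
    lifts n f ≫ pr X n j = f j := by
  induction n with
  | zero =>
    obtain rfl : j = 0 := Fin.ext (by have := j.2; omega)
    exact Category.comp_id (f 0)
  | succ n ih =>
    refine Fin.lastCases ?_ (fun i => ?_) j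
    · rw [pr_last]
      exact Obj.lift_snd _ _
    · rw [pr_castSucc]
      change (Obj.lift (lifts n fun j => f j.castSucc) (f (Fin.last (n + 1)))) ≫
        (fst (pow X n) X ≫ pr X n i) = f i.castSucc
      rw [← Category.assoc, Obj.lift_fst, ih]

lemma extFam_eq (n : ℕ) (v : Fin (n + 1) → W.H X) :
    extFam W n v = (List.ofFn fun j => W.map (pr X n j) (v j)).prod := by
  induction n with
  | zero =>
    rw [List.ofFn_succ]
    simp only [List.ofFn_zero, List.prod_cons, List.prod_nil, mul_one]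
    exact (W.map_id X (v 0)).symm
  | succ n ih =>
    rw [List.ofFn_succ_last, List.prod_append, List.prod_singleton, pr_last]
    change W.map (fst (pow X n) X) (extFam W n fun j => v j.castSucc) * _ = _
    rw [ih, map_list_prod, List.map_ofFn]
    congr 3
    funext j
    rw [Function.comp_apply, pr_castSucc]
    exact (W.map_comp (fst (pow X n) X) (pr X n j) (v j.castSucc)).symm

/-- The external product as a multilinear map. -/
noncomputable def extML (W : WeilCohomology.{u, v} ops) (X : 𝒱.Obj) (i n : ℕ) :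
    MultilinearMap W.K (fun _ : Fin (n + 1) => W.gr X i) (W.H (pow X n)) :=
  (MultilinearMap.mkPiAlgebraFin W.K (n + 1) (W.H (pow X n))).compLinearMap
    (fun j => (W.map (pr X n j)).toLinearMap ∘ₗ (W.gr X i).subtype)

lemma extML_apply (i n : ℕ) (v : Fin (n + 1) → W.gr X i) :
    extML W X i n v = extFam W n fun j => (v j : W.H X) := by
  rw [extML, MultilinearMap.compLinearMap_apply, MultilinearMap.mkPiAlgebraFin_apply, extFam_eq]
  rfl

/-- The antisymmetrised external product as an alternating map. -/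
noncomputable def detML (W : WeilCohomology.{u, v} ops) (X : 𝒱.Obj) (i n : ℕ) :
    (W.gr X i) [⋀^Fin (n + 1)]→ₗ[W.K] (W.H (pow X n)) :=
  MultilinearMap.alternatization (extML W X i n)

lemma detML_apply (i n : ℕ) (v : Fin (n + 1) → W.gr X i) :
    detML W X i n v = detClass W n fun j => (v j : W.H X) := by
  rw [detML, MultilinearMap.alternatization_apply, detClass]
  refine Finset.sum_congr rfl fun σ _ => ?_
  rw [MultilinearMap.domDomCongr_apply, extML_apply, Units.smul_def, ← Int.cast_smul_eq_zsmul W.K]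

/-- Degrees. -/
lemma extFam_mem {i : ℕ} (n : ℕ) {v : Fin (n + 1) → W.H X} (hv : ∀ j, v j ∈ W.gr X i) :
    extFam W n v ∈ W.gr (pow X n) (i * (n + 1)) := by
  induction n with
  | zero =>
    rw [zero_add, mul_one]
    exact hv 0
  | succ n ih =>
    have h1 := W.mul_mem (W.map_mem (fst (pow X n) X) (ih fun j => hv j.castSucc))
      (W.map_mem (snd (pow X n) X) (hv (Fin.last (n + 1))))
    have e : i * (n + 1) + i = i * (n + 1 + 1) := by ring
    rw [e] at h1
    exact h1

lemma detClass_mem {i : ℕ} (n : ℕ) {v : Fin (n + 1) → W.H X} (hv : ∀ j, v j ∈ W.gr X i) :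
    detClass W n v ∈ W.gr (pow X n) (i * (n + 1)) :=
  Submodule.sum_mem _ fun _ _ => Submodule.smul_mem _ _ (extFam_mem n fun _ => hv _)

end Pool.Agent.Helper70Ls
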