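import Pool.Agent.Helper70_ls.Det9

/-!
# The determinant line and orthogonality
-/

open CategoryTheory AlgebraicGeometry

universe u v

namespace Pool.Agent.Helper70Ls

open Pool.Agent.H914 Pool.Agent.H914.VarClass Pool.Agent.H914.VarClass.Obj
  Pool.Agent.H914.WeilCohomology Pool.Agent.Helper70Rk Pool.Agent.W537

variable {k : Type u} [Field k] {𝒱 : VarClass k} {ops : CycleOps 𝒱}
  {W : WeilCohomology.{u, v} ops} {X Y Z : 𝒱.Obj}

lemma dim_pow (X : 𝒱.Obj) (n : ℕ) : (pow X n).dim = X.dim * (n + 1) := by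
  induction n with
  | zero => rw [zero_add, mul_one]; rfl
  | succ n ih =>
    change (pow X n).dim + X.dim = _
    rw [ih]
    ring

lemma xpow_one (n : ℕ) : xpow (1 : W.H X) n = 1 := by
  induction n with
  | zero => rfl
  | succ n ih =>
    change ext (xpow (1 : W.H X) n) (1 : W.H X) = _
    rw [ih, ext, map_one, map_one, mul_one]
    rfl

/-- The Lefschetz isomorphism. -/
noncomputable def lefEquiv {D : X.Cycles} (hD : X.IsCyc 1 D) (hHL : HardLefschetz W X D) {i : ℕ}
    (hi : i ≤ X.dim) : W.gr X i ≃ₗ[W.K] W.gr X (2 * X.dim - i) :=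
  LinearEquiv.ofBijective
    ((LinearMap.mulLeft W.K (W.cl X D ^ (X.dim - i))).restrict (p := W.gr X i)
      (q := W.gr X (2 * X.dim - i)) (fun a ha => by
        have := W.mul_mem (pow_gr hD (X.dim - i)) ha
        rwa [show 2 * (X.dim - i) + i = 2 * X.dim - i by omega] at this))
    ⟨by
      rw [← LinearMap.ker_eq_bot, LinearMap.ker_eq_bot']
      intro a ha
      apply Subtype.ext
      refine (hHL i hi).1 a a.2 ?_
      rw [LinearMap.pow_mulLeft]
      exact congrArg Subtype.val ha,
    fun c => by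
      obtain ⟨b, hb, h⟩ := hl_surj hHL hi c.2
      exact ⟨⟨b, hb⟩, Subtype.ext h⟩⟩

lemma lefEquiv_apply {D : X.Cycles} (hD : X.IsCyc 1 D) (hHL : HardLefschetz W X D) {i : ℕ}
    (hi : i ≤ X.dim) (a : W.gr X i) :
    (lefEquiv hD hHL hi a : W.H X) = W.cl X D ^ (X.dim - i) * a := rfl

/-- Dual bases in complementary degrees. -/
lemma exists_dual_compl {D : X.Cycles} (hD : X.IsCyc 1 D) (hHL : HardLefschetz W X D) {i : ℕ}
    (hi : i ≤ X.dim) {n : ℕ} (x : Module.Basis (Fin (n + 1)) W.K (W.gr X (2 * X.dim - i))) :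
    ∃ y : Module.Basis (Fin (n + 1)) W.K (W.gr X i),
      ∀ a b, W.tr X ((x a : W.H X) * (y b : W.H X)) = if a = b then 1 else 0 := by
  set e := lefEquiv hD hHL hi with he
  refine ⟨LinearMap.BilinForm.dualBasis (lefForm W X D i).flip
    (lefForm_nondeg hD hHL hi).flip (x.map e.symm), fun a b => ?_⟩
  have h1 := LinearMap.BilinForm.apply_dualBasis_left (B := (lefForm W X D i).flip)
    (lefForm_nondeg hD hHL hi).flip (x.map e.symm) b a
  rw [LinearMap.BilinForm.flip_apply, lefForm_apply, ← mul_assoc, Module.Basis.map_apply] at h1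
  rw [← h1, ← lefEquiv_apply hD hHL hi, ← he, LinearEquiv.apply_symm_apply]

/-- The class of the Kunneth projector. -/
lemma projector_form {i n : ℕ} (hi : i ≤ X.dim)
    (x : Module.Basis (Fin (n + 1)) W.K (W.gr X (2 * X.dim - i)))
    (y : Module.Basis (Fin (n + 1)) W.K (W.gr X i))
    (hxy : ∀ a b, W.tr X ((x a : W.H X) * (y b : W.H X)) = if a = b then 1 else 0)
    {P : (X.prod X).Cycles} (hP : (X.prod X).IsCyc X.dim P) (hP' : InducesProjector W X i P) :
    ∑ b, ext (x b : W.H X) (y b : W.H X) ∈ Alg W (X.prod X) := by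
  set G := ∑ b, ext (x b : W.H X) (y b : W.H X) with hG
  have hsum : ∀ c : W.H X, W.corr G c = ∑ b, W.corr (ext (x b : W.H X) (y b : W.H X)) c := by
    intro c
    rw [hG, corr_apply, Finset.sum_mul, map_sum]
    rfl
  have h6 : W.corr G = W.corr ((-1 : W.K) ^ (i * i) • W.cl (X.prod X) P) := by
    apply gr_ext (W.isInternal X)
    intro j c hc
    rw [W.corr_smul, LinearMap.smul_apply, hP' j c hc, hsum]
    by_cases hj : j = i
    · subst hj
      rw [if_pos rfl]
      have h1 : ∀ b, W.corr (ext (x b : W.H X) (y b : W.H X)) c =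
          (-1 : W.K) ^ (j * j) • (y.repr ⟨c, hc⟩ b • (y b : W.H X)) := by
        intro b
        rw [corr_ext_eq (y b).2 hc, smul_smul]
        congr 2
        have h2 := congrArg (fun z : W.gr X j => W.tr X ((x b : W.H X) * (z : W.H X)))
          (y.sum_repr ⟨c, hc⟩)
        simp only [Submodule.coe_sum, Submodule.coe_smul, Finset.mul_sum, map_sum, mul_smul_comm,
          map_smul, hxy, smul_eq_mul] at h2
        rw [← h2, Finset.sum_eq_single b]
        · rw [if_pos rfl, mul_one]
        · intro a _ ha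
          rw [if_neg (Ne.symm ha), mul_zero]
        · intro h
          exact absurd (Finset.mem_univ b) h
      rw [Finset.sum_congr rfl fun b _ => h1 b, ← Finset.smul_sum]
      congr 1
      have h3 := congrArg (fun z : W.gr X j => (z : W.H X)) (y.sum_repr ⟨c, hc⟩)
      simp only [Submodule.coe_sum, Submodule.coe_smul] at h3
      exact h3
    · rw [if_neg hj, smul_zero]
      refine Finset.sum_eq_zero fun b _ => ?_
      rw [corr_ext_eq (y b).2 hc, W.tr_eq_zero (W.mul_mem (x b).2 hc) (by omega), mul_zero,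
        zero_smul]
  have h5 : G = (-1 : W.K) ^ (i * i) • W.cl (X.prod X) P := by
    rw [← sub_eq_zero]
    apply corr_inj'
    have h7 : W.corr (G - (-1 : W.K) ^ (i * i) • W.cl (X.prod X) P) +
        W.corr ((-1 : W.K) ^ (i * i) • W.cl (X.prod X) P) = W.corr G := by
      rw [← W.corr_add, sub_add_cancel]
    rw [h6] at h7
    exact add_eq_right.1 h7
  rw [h5]
  exact Submodule.smul_mem _ _ (Alg.cl hP)

/-- The determinant lines in complementary degrees are dual. -/
lemma tr_det_compl {i' i n : ℕ} {x y : Fin (n + 1) → W.H X} (hx : ∀ b, x b ∈ W.gr X i')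
    (hy : ∀ b, y b ∈ W.gr X i)
    (hxy : ∀ a b, W.tr X (x a * y b) = if a = b then 1 else 0) :
    W.tr (pow X n) (detClass W n x * detClass W n y) ≠ 0 := by
  have h1 := tr_det (W := W) (ρ := (1 : W.H X)) (p := 0) (W.one_mem X) hx hy
    (fun a b => by rw [one_mul, hxy])
  rwa [xpow_one, one_mul] at h1

/-- **The criterion by orthogonality.** -/
theorem square_iff_nonorth {D : X.Cycles} (hD : X.IsCyc 1 D) (hHL : HardLefschetz W X D) {i : ℕ}
    (hi : i ≤ X.dim) {P : (X.prod X).Cycles} (hP : (X.prod X).IsCyc X.dim P)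
    (hP' : InducesProjector W X i P) : DetSquareAlgebraic W X i ↔ DetNonorthogonal W X i := by
  constructor
  · intro h n v hv
    obtain ⟨x, hx⟩ := exists_basis hv
    obtain rfl : (fun j => (x j : W.H X)) = v := funext hx
    obtain ⟨y, hxy⟩ := exists_dual_compl hD hHL hi x
    have h1 := h n _ (isBasisOf y)
    set δ := detClass W n fun j => (y j : W.H X) with hδ
    set δ' := detClass W n fun j => (x j : W.H X) with hδ'
    have h2 : W.tr (pow X n) (δ' * δ) ≠ 0 :=
      tr_det_compl (fun b => (x b).2) (fun b => (y b).2) hxy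
    have hHδ : Hom δ := ⟨_, detClass_mem n fun b => (y b).2⟩
    have hHδ' : Hom δ' := ⟨_, detClass_mem n fun b => (x b).2⟩
    have h3 : W.tr (pow X n) (δ * δ') ≠ 0 := by
      obtain ⟨s, hs, e⟩ := comm_of_hom hHδ hHδ'
      rw [e, map_smul, smul_eq_mul]
      exact mul_ne_zero hs h2
    have h4 : W.tr ((pow X n).prod (pow X n)) (ext δ δ * ext δ' δ') ≠ 0 := by
      obtain ⟨s, hs, e⟩ := Helper70Rk.tr_ext (W := W) (a := δ) (b := δ) (c := δ') (d := δ')
        hHδ hHδ'
      rw [e]
      exact mul_ne_zero hs (mul_ne_zero h3 h3)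
    by_contra hno
    push Not at hno
    apply h4
    have h5 : ∀ t ∈ spanCycles W ((pow X n).prod (pow X n)) ((i * (n + 1) : ℕ) : ℤ),
        W.tr ((pow X n).prod (pow X n)) (t * ext δ' δ') = 0 := by
      intro t ht
      induction ht using Submodule.span_induction with
      | mem t ht =>
        obtain ⟨q, hq, z, hz, rfl⟩ := ht
        obtain rfl : q = i * (n + 1) := by exact_mod_cast hq
        exact hno z hz
      | zero => rw [zero_mul, map_zero]
      | add a b _ _ ha hb => rw [add_mul, map_add, ha, hb, add_zero]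
      | smul c a _ ha => rw [smul_mul_assoc, map_smul, ha, smul_zero]
    exact h5 _ h1
  · intro h n v hv
    obtain ⟨y₀, hy₀⟩ := exists_basis hv
    obtain rfl : (fun j => (y₀ j : W.H X)) = v := funext hy₀
    set x := y₀.map (lefEquiv hD hHL hi) with hx
    obtain ⟨y, hxy⟩ := exists_dual_compl hD hHL hi x
    obtain ⟨z, hz, hne⟩ := h n _ (isBasisOf x)
    set δ := detClass W n fun j => (y j : W.H X) with hδ
    set δ' := detClass W n fun j => (x j : W.H X) with hδ'
    have hmδ : δ ∈ W.gr (pow X n) (i * (n + 1)) := detClass_mem n fun b => (y b).2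
    have hmδ' : δ' ∈ W.gr (pow X n) ((2 * X.dim - i) * (n + 1)) :=
      detClass_mem n fun b => (x b).2
    have hHδ : Hom δ := ⟨_, hmδ⟩
    have hHδ' : Hom δ' := ⟨_, hmδ'⟩
    have h1 : ER δ' δ := det_alg (fun b => (x b).2) (fun b => (y b).2)
      (projector_form hi x y hxy hP hP')
    set T := W.corr (W.cl ((pow X n).prod (pow X n)) z) with hT
    have hTA : T ∈ AOp W (pow X n) (pow X n) := AOp.cyc hz
    have hTH : Hom (T δ') := by
      refine ⟨i * (n + 1), ?_⟩
      have h3 := W.push_mem (snd (pow X n) (pow X n))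
        (W.mul_mem (W.cl_mem hz) (W.map_mem (fst (pow X n) (pow X n)) hmδ'))
      rw [dim_prod, dim_pow] at h3
      have e : ((2 * (i * (n + 1)) + (2 * X.dim - i) * (n + 1) : ℕ) : ℤ) +
          2 * (((X.dim * (n + 1) : ℕ) : ℤ) - ((X.dim * (n + 1) + X.dim * (n + 1) : ℕ) : ℤ)) =
          ((i * (n + 1) : ℕ) : ℤ) := by
        push_cast [Nat.cast_sub (show i ≤ 2 * X.dim by omega)]
        ring
      rw [e, grZ_natCast] at h3
      exact h3
    have h2 : W.tr (pow X n) (δ' * T δ') ≠ 0 := by
      obtain ⟨s, hs, e⟩ := comm_of_hom hHδ' hTH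
      rw [e, map_smul, smul_eq_mul]
      refine mul_ne_zero hs ?_
      rw [hT, corr_apply, W.tr_push, mul_assoc]
      exact hne
    have h3 : ER δ (T δ') := ER.op hHδ hHδ' (ER.swap hHδ' hHδ h1) hTA hTH
    have h4 : ER δ δ := ER.comp hHδ hTH hHδ' hHδ h3 h1 h2
    obtain ⟨r, hr⟩ := det_change (W := W) y y₀
    have h5 : ext (detClass W n fun j => (y₀ j : W.H X)) (detClass W n fun j => (y₀ j : W.H X)) ∈
        Alg W ((pow X n).prod (pow X n)) := by
      rw [hr, ext_smul_left, ext_smul_right]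
      exact Submodule.smul_mem _ _ (Submodule.smul_mem _ _ h4)
    refine alg_span h5 ?_
    have h9 := detClass_mem (W := W) n (fun b => (y₀ b).2)
    have h10 := W.mul_mem (W.map_mem (fst (pow X n) (pow X n)) h9)
      (W.map_mem (snd (pow X n) (pow X n)) h9)
    rwa [← two_mul] at h10

end Pool.Agent.Helper70Ls
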