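import Pool.Agent.Helper70_ls.Det1

/-!
# Permutations of the factors
-/

open CategoryTheory AlgebraicGeometry

universe u v

namespace Pool.Agent.Helper70Ls

open Pool.Agent.H914 Pool.Agent.H914.VarClass Pool.Agent.H914.VarClass.Obj
  Pool.Agent.H914.WeilCohomology Pool.Agent.Helper70Rk

variable {k : Type u} [Field k] {𝒱 : VarClass k} {ops : CycleOps 𝒱}
  {W : WeilCohomology.{u, v} ops} {X Y Z : 𝒱.Obj}

/-- Products of classes of the same odd degree are alternating. -/
noncomputable def oddML (W : WeilCohomology.{u, v} ops) (Z : 𝒱.Obj) {i : ℕ} (hi : Odd i) (N : ℕ) :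
    (W.gr Z i) [⋀^Fin N]→ₗ[W.K] (W.H Z) :=
  (ExteriorAlgebra.lift W.K (⟨(W.gr Z i).subtype, fun m => by
    have h := W.comm m.2 m.2
    rw [(hi.mul hi).neg_one_pow, neg_one_smul] at h
    have h2 : (2 : W.K) • ((m : W.H Z) * m) = 0 := by
      rw [two_smul]
      nth_rewrite 1 [h]
      exact neg_add_cancel _
    exact (smul_eq_zero.1 h2).resolve_left two_ne_zero⟩ :
      {f : W.gr Z i →ₗ[W.K] W.H Z // ∀ m, f m * f m = 0})).toLinearMap.compAlternatingMap
    (ExteriorAlgebra.ιMulti W.K N)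

lemma oddML_apply {i : ℕ} (hi : Odd i) (N : ℕ) (a : Fin N → W.gr Z i) :
    oddML W Z hi N a = (List.ofFn fun j => (a j : W.H Z)).prod := by
  rw [oddML, LinearMap.compAlternatingMap_apply, ExteriorAlgebra.ιMulti_apply,
    AlgHom.toLinearMap_apply, map_list_prod, List.map_ofFn]
  congr 2
  funext j
  rw [Function.comp_apply, ExteriorAlgebra.lift_ι_apply]
  rfl

/-- The product of classes of the same degree in a different order. -/
lemma prod_perm {i N : ℕ} (a : Fin N → W.H Z) (ha : ∀ j, a j ∈ W.gr Z i)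
    (σ : Equiv.Perm (Fin N)) :
    (List.ofFn fun j => a (σ j)).prod =
      ((Equiv.Perm.sign σ : ℤ) : W.K) ^ i • (List.ofFn a).prod := by
  rcases Nat.even_or_odd i with hi | hi
  · have h1 : ((Equiv.Perm.sign σ : ℤ) : W.K) ^ i = 1 := by
      rcases Int.units_eq_one_or (Equiv.Perm.sign σ) with h | h
      · rw [h]; simp
      · rw [h]; simpa using hi.neg_one_pow
    rw [h1, one_smul]
    have h2 : (List.ofFn (a ∘ σ)).Perm (List.ofFn a) := Equiv.Perm.ofFn_comp_perm σ a
    refine List.Perm.prod_eq' h2 ?_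
    rw [List.pairwise_ofFn]
    intro j l _
    change a (σ j) * a (σ l) = a (σ l) * a (σ j)
    rw [W.comm (ha _) (ha _), (hi.mul_right i).neg_one_pow, one_smul]
  · have h1 : ((Equiv.Perm.sign σ : ℤ) : W.K) ^ i = ((Equiv.Perm.sign σ : ℤ) : W.K) := by
      rcases Int.units_eq_one_or (Equiv.Perm.sign σ) with h | h
      · rw [h]; simp
      · rw [h]; simpa using hi.neg_one_pow
    rw [h1]
    have h2 := (oddML W Z hi N).map_perm (fun j => (⟨a j, ha j⟩ : W.gr Z i)) σ
    rw [oddML_apply] at h2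
    have h3 := oddML_apply (W := W) hi N (fun j => (⟨a j, ha j⟩ : W.gr Z i))
    rw [h3, Units.smul_def, ← Int.cast_smul_eq_zsmul W.K] at h2
    exact h2

/-- The permutation of the factors. -/
noncomputable def permMor (X : 𝒱.Obj) (n : ℕ) (σ : Equiv.Perm (Fin (n + 1))) :
    pow X n ⟶ pow X n :=
  lifts n fun j => pr X n (σ j)

lemma permMor_extFam {i n : ℕ} (σ : Equiv.Perm (Fin (n + 1))) {v : Fin (n + 1) → W.H X}
    (hv : ∀ j, v j ∈ W.gr X i) :
    W.map (permMor X n σ) (extFam W n v) =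
      ((Equiv.Perm.sign σ : ℤ) : W.K) ^ i • extFam W n fun j => v (σ⁻¹ j) := by
  rw [extFam_eq, extFam_eq, map_list_prod, List.map_ofFn]
  have h := prod_perm (W := W) (fun j => W.map (pr X n j) (v (σ⁻¹ j))) (i := i)
    (fun j => W.map_mem _ (hv _)) σ
  rw [← h]
  congr 2
  funext j
  rw [Function.comp_apply, ← W.map_comp, permMor, lifts_pr,
    show σ⁻¹ (σ j) = j from σ.symm_apply_apply j]

/-- The antisymmetrisation operator. -/
noncomputable def asym (W : WeilCohomology.{u, v} ops) (X : 𝒱.Obj) (i n : ℕ) :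
    W.H (pow X n) →ₗ[W.K] W.H (pow X n) :=
  ∑ σ : Equiv.Perm (Fin (n + 1)),
    ((Equiv.Perm.sign σ : ℤ) : W.K) ^ (i + 1) • (W.map (permMor X n σ)).toLinearMap

lemma asym_extFam {i n : ℕ} {v : Fin (n + 1) → W.H X} (hv : ∀ j, v j ∈ W.gr X i) :
    asym W X i n (extFam W n v) = detClass W n v := by
  rw [asym, LinearMap.sum_apply, detClass,
    ← Equiv.sum_comp (Equiv.inv (Equiv.Perm (Fin (n + 1))))]
  refine Finset.sum_congr rfl fun σ _ => ?_
  rw [LinearMap.smul_apply, AlgHom.toLinearMap_apply, permMor_extFam _ hv, smul_smul, ← pow_add,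
    Equiv.inv_apply, inv_inv, Equiv.Perm.sign_inv]
  congr 1
  rcases Int.units_eq_one_or (Equiv.Perm.sign σ) with h | h
  · rw [h]; simp
  · rw [h]
    have : Odd (i + 1 + i) := ⟨i, by ring⟩
    simp [this.neg_one_pow]

lemma asym_alg {i n : ℕ} {x : W.H (pow X n)} (hx : x ∈ Alg W (pow X n)) :
    asym W X i n x ∈ Alg W (pow X n) := by
  rw [asym, LinearMap.sum_apply]
  refine Submodule.sum_mem _ fun σ _ => ?_
  rw [LinearMap.smul_apply]
  exact Submodule.smul_mem _ _ (Alg.map _ hx)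

/-- The antisymmetrisation operator on the first factor. -/
noncomputable def asymL (W : WeilCohomology.{u, v} ops) (X Y : 𝒱.Obj) (i n : ℕ) :
    W.H ((pow X n).prod Y) →ₗ[W.K] W.H ((pow X n).prod Y) :=
  ∑ σ : Equiv.Perm (Fin (n + 1)), ((Equiv.Perm.sign σ : ℤ) : W.K) ^ (i + 1) •
    (W.map (Obj.lift (fst (pow X n) Y ≫ permMor X n σ) (snd (pow X n) Y))).toLinearMap

lemma asymL_ext {i n : ℕ} (a : W.H (pow X n)) (b : W.H Y) :
    asymL W X Y i n (ext a b) = ext (asym W X i n a) b := by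
  rw [asymL, LinearMap.sum_apply, asym, LinearMap.sum_apply]
  change _ = W.map (fst (pow X n) Y) (∑ σ, _) * W.map (snd (pow X n) Y) b
  rw [map_sum, Finset.sum_mul]
  refine Finset.sum_congr rfl fun σ _ => ?_
  rw [LinearMap.smul_apply, LinearMap.smul_apply, AlgHom.toLinearMap_apply,
    AlgHom.toLinearMap_apply, map_smul, smul_mul_assoc, ext, map_mul, ← W.map_comp, ← W.map_comp,
    Obj.lift_fst, Obj.lift_snd, W.map_comp]

lemma asymL_alg {i n : ℕ} {x : W.H ((pow X n).prod Y)} (hx : x ∈ Alg W ((pow X n).prod Y)) :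
    asymL W X Y i n x ∈ Alg W ((pow X n).prod Y) := by
  rw [asymL, LinearMap.sum_apply]
  refine Submodule.sum_mem _ fun σ _ => ?_
  rw [LinearMap.smul_apply]
  exact Submodule.smul_mem _ _ (Alg.map _ hx)

end Pool.Agent.Helper70Ls
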