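import Pool.Agent.Helper70_ls.Det2

/-!
# From the inverse form to the determinant line
-/

open CategoryTheory AlgebraicGeometry

universe u v

namespace Pool.Agent.Helper70Ls

open Pool.Agent.H914 Pool.Agent.H914.VarClass Pool.Agent.H914.VarClass.Obj
  Pool.Agent.H914.WeilCohomology Pool.Agent.Helper70Rk

variable {k : Type u} [Field k] {𝒱 : VarClass k} {ops : CycleOps 𝒱}
  {W : WeilCohomology.{u, v} ops} {X Y Z X' Y' : 𝒱.Obj}

lemma ext_smul_left (c : W.K) (a : W.H X) (b : W.H Y) : ext (c • a) b = c • ext a b := by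
  rw [ext, map_smul, smul_mul_assoc, ext]

lemma ext_smul_right (c : W.K) (a : W.H X) (b : W.H Y) : ext a (c • b) = c • ext a b := by
  rw [ext, map_smul, mul_smul_comm, ext]

lemma ext_sum_left {ι : Type*} (s : Finset ι) (a : ι → W.H X) (b : W.H Y) :
    ext (∑ j ∈ s, a j) b = ∑ j ∈ s, ext (a j) b := by
  simp only [ext, map_sum, Finset.sum_mul]

lemma ext_sum_right {ι : Type*} (s : Finset ι) (a : W.H X) (b : ι → W.H Y) :
    ext a (∑ j ∈ s, b j) = ∑ j ∈ s, ext a (b j) := by
  simp only [ext, map_sum, Finset.mul_sum]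

lemma ext_zero_left (b : W.H Y) : ext (0 : W.H X) b = 0 := by
  rw [ext, map_zero, zero_mul]

/-- External products of external products. -/
lemma ext_ext {i j : ℕ} (a : W.H X) {b : W.H Y} {c : W.H X'} (d : W.H Y') (hc : c ∈ W.gr X' i)
    (hb : b ∈ W.gr Y j) :
    ext (ext a c) (ext b d) = (-1 : W.K) ^ (i * j) •
      (W.map (Obj.lift (fst (X.prod X') (Y.prod Y') ≫ fst X X')
        (snd (X.prod X') (Y.prod Y') ≫ fst Y Y')) (ext a b) *
      W.map (Obj.lift (fst (X.prod X') (Y.prod Y') ≫ snd X X')
        (snd (X.prod X') (Y.prod Y') ≫ snd Y Y')) (ext c d)) := by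
  rw [ext, ext, ext, ext, ext, map_mul, map_mul, map_mul, map_mul, ← W.map_comp, ← W.map_comp,
    ← W.map_comp, ← W.map_comp, ← W.map_comp, ← W.map_comp, ← W.map_comp, ← W.map_comp,
    Obj.lift_fst, Obj.lift_snd, Obj.lift_fst, Obj.lift_snd, mul_assoc, ← mul_assoc (W.map _ c),
    W.comm (W.map_mem _ hc) (W.map_mem _ hb), smul_mul_assoc, mul_smul_comm, mul_assoc, mul_assoc]

/-- A sum over all maps of a function vanishing at the maps which are not bijective. -/
lemma sum_perm {N M : Type*} [AddCommMonoid M] [Fintype N] [DecidableEq N] (F : (N → N) → M)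
    (hF : ∀ v, ¬ Function.Bijective v → F v = 0) :
    ∑ v, F v = ∑ σ : Equiv.Perm N, F σ := by
  classical
  symm
  rw [← Finset.sum_filter_of_ne (p := fun v : N → N => Function.Bijective v)
    (fun v _ h => by by_contra h1; exact h (hF v h1))]
  refine Finset.sum_bij (fun (σ : Equiv.Perm N) _ => (σ : N → N)) ?_ ?_ ?_ ?_
  · intro σ _
    exact Finset.mem_filter.2 ⟨Finset.mem_univ _, σ.bijective⟩
  · intro σ _ τ _ h
    exact Equiv.coe_fn_injective h
  · intro v hv
    exact ⟨Equiv.ofBijective v (Finset.mem_filter.1 hv).2, Finset.mem_univ _, rfl⟩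
  · intro σ _
    rfl

/-- Powers of the inverse form. -/
lemma words_alg {B : Type*} [Fintype B] {i' i : ℕ} {x y : B → W.H X}
    (hx : ∀ b, x b ∈ W.gr X i') (hy : ∀ b, y b ∈ W.gr X i) (h : ∑ b, ext (x b) (y b) ∈ Alg W (X.prod X)) (n : ℕ) :
    ∑ v : Fin (n + 1) → B, ext (extFam W n fun j => x (v j)) (extFam W n fun j => y (v j)) ∈
      Alg W ((pow X n).prod (pow X n)) := by
  induction n with
  | zero =>
    have h1 := Equiv.sum_comp (Equiv.funUnique (Fin 1) B) (fun b => ext (W := W) (x b) (y b))
    rw [← h1] at h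
    exact h
  | succ n ih =>
    have h2 := Alg.mul (Alg.map (Obj.lift (fst ((pow X n).prod X) ((pow X n).prod X) ≫
        fst (pow X n) X) (snd ((pow X n).prod X) ((pow X n).prod X) ≫ fst (pow X n) X)) ih)
      (Alg.map (Obj.lift (fst ((pow X n).prod X) ((pow X n).prod X) ≫
        snd (pow X n) X) (snd ((pow X n).prod X) ((pow X n).prod X) ≫ snd (pow X n) X)) h)
    have h3 := Submodule.smul_mem _ ((-1 : W.K) ^ (i' * (i * (n + 1)))) h2
    rw [← Equiv.sum_comp (Fin.snocEquiv (fun _ : Fin (n + 2) => B)), Fintype.sum_prod_type]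
    rw [map_sum, map_sum, Finset.sum_mul_sum, Finset.sum_comm, Finset.smul_sum] at h3
    refine Eq.subst (motive := fun z : W.H (((pow X n).prod X).prod ((pow X n).prod X)) =>
      z ∈ Alg W (((pow X n).prod X).prod ((pow X n).prod X))) ?_ h3
    refine Finset.sum_congr rfl fun b _ => ?_
    rw [Finset.smul_sum]
    refine Finset.sum_congr rfl fun v _ => ?_
    rw [← ext_ext _ _ (hx b) (extFam_mem n fun j => hy (v j))]
    have e1 : ∀ z : B → W.H X, extFam W (n + 1) (fun j => z
        ((Fin.snocEquiv (fun _ : Fin (n + 2) => B)) (b, v) j)) =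
        ext (extFam W n fun j => z (v j)) (z b) := by
      intro z
      change W.map (fst (pow X n) X) (extFam W n fun j => z (Fin.snoc (α := fun _ => B) v b
        j.castSucc)) * W.map (snd (pow X n) X) (z (Fin.snoc (α := fun _ => B) v b
        (Fin.last (n + 1)))) = _
      simp only [Fin.snoc_castSucc, Fin.snoc_last]
      rfl
    rw [e1, e1]
    rfl

/-- **The inverse form generates the determinant line.** -/
lemma det_alg {i' i n : ℕ} {x y : Fin (n + 1) → W.H X} (hx : ∀ b, x b ∈ W.gr X i')
    (hy : ∀ b, y b ∈ W.gr X i) (h : ∑ b, ext (x b) (y b) ∈ Alg W (X.prod X)) :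
    ext (detClass W n x) (detClass W n y) ∈ Alg W ((pow X n).prod (pow X n)) := by
  have h1 := asymL_alg (i := i') (words_alg hx hy h n)
  rw [map_sum] at h1
  have h2 : ∀ v : Fin (n + 1) → Fin (n + 1),
      asymL W X (pow X n) i' n (ext (extFam W n fun j => x (v j)) (extFam W n fun j => y (v j))) =
        ext (detClass W n fun j => x (v j)) (extFam W n fun j => y (v j)) := by
    intro v
    rw [asymL_ext, asym_extFam fun j => hx (v j)]
  rw [Finset.sum_congr rfl (fun v _ => h2 v), sum_perm] at h1
  swap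
  · intro v hv
    have h3 : ¬ Function.Injective v := fun h => hv (Finite.injective_iff_bijective.1 h)
    have h4 := (detML W X i' n).map_eq_zero_of_not_injective (fun j => ⟨x (v j), hx (v j)⟩) (by
      intro h5
      apply h3
      intro a b hab
      exact h5 (by simp only [hab]))
    rw [detML_apply] at h4
    rw [h4, ext_zero_left]
  · have h3 : ∀ σ : Equiv.Perm (Fin (n + 1)),
        ext (detClass W n fun j => x (σ j)) (extFam W n fun j => y (σ j)) =
          ext (detClass W n x)
            (((Equiv.Perm.sign σ : ℤ) : W.K) • extFam W n fun j => y (σ j)) := by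
      intro σ
      have h4 := (detML W X i' n).map_perm (fun j => (⟨x j, hx j⟩ : W.gr X i')) σ
      rw [detML_apply, detML_apply, Units.smul_def, ← Int.cast_smul_eq_zsmul W.K] at h4
      have h5 : (detClass W n fun j => x (σ j)) =
          ((Equiv.Perm.sign σ : ℤ) : W.K) • detClass W n x := h4
      rw [h5, ext_smul_left, ext_smul_right]
    rw [Finset.sum_congr rfl (fun σ _ => h3 σ), ← ext_sum_right] at h1
    exact h1

/-- Change of the basis. -/
lemma det_change {i n : ℕ} (b c : Module.Basis (Fin (n + 1)) W.K (W.gr X i)) :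
    ∃ r : W.K, (detClass W n fun j => (c j : W.H X)) =
      r • detClass W n fun j => (b j : W.H X) := by
  refine ⟨b.det c, ?_⟩
  have h1 : detML W X i n =
      (LinearMap.toSpanSingleton W.K _ (detML W X i n b)).compAlternatingMap b.det := by
    apply Module.Basis.ext_alternating b
    intro v hv
    set σ : Equiv.Perm (Fin (n + 1)) :=
      Equiv.ofBijective v (Finite.injective_iff_bijective.1 hv) with hσ
    have e : (fun j => b (v j)) = (b : Fin (n + 1) → W.gr X i) ∘ σ := rfl
    rw [e, AlternatingMap.map_perm, AlternatingMap.map_perm, LinearMap.compAlternatingMap_apply,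
      LinearMap.toSpanSingleton_apply, Module.Basis.det_self, one_smul]
  have h2 := congrArg (fun f : (W.gr X i) [⋀^Fin (n + 1)]→ₗ[W.K] (W.H (pow X n)) => f c) h1
  simp only [LinearMap.compAlternatingMap_apply, LinearMap.toSpanSingleton_apply,
    detML_apply] at h2
  exact h2

end Pool.Agent.Helper70Ls
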