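import Pool.Agent.Helper70_ls.Det4
import Pool.Agent.Helper70_rk1.Rank

/-!
# The criterion in one degree
-/

open CategoryTheory AlgebraicGeometry

universe u v

namespace Pool.Agent.Helper70Ls

open Pool.Agent.H914 Pool.Agent.H914.VarClass Pool.Agent.H914.VarClass.Obj
  Pool.Agent.H914.WeilCohomology Pool.Agent.Helper70Rk

variable {k : Type u} [Field k] {𝒱 : VarClass k} {ops : CycleOps 𝒱}
  {W : WeilCohomology.{u, v} ops} {X Y Z : 𝒱.Obj}

lemma span_le_alg {x : W.H X} {q : ℤ} (h : x ∈ spanCycles W X q) : x ∈ Alg W X := by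
  refine (Submodule.span_mono ?_ : spanCycles W X q ≤ Alg W X) h
  rintro c ⟨p, _, z, hz, rfl⟩
  exact ⟨p, z, hz, rfl⟩

lemma alg_span {x : W.H X} (hx : x ∈ Alg W X) {p : ℕ} (h : x ∈ W.gr X (2 * p)) :
    x ∈ spanCycles W X p := by
  refine (Submodule.span_mono ?_ : AlgIn W X (2 * p) ≤ spanCycles W X p) (alg_hom hx h)
  rintro c ⟨j, z, hj, hz, rfl⟩
  exact ⟨j, by omega, z, hz, rfl⟩

lemma pow_gr {D : X.Cycles} (hD : X.IsCyc 1 D) (r : ℕ) : W.cl X D ^ r ∈ W.gr X (2 * r) := by
  induction r with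
  | zero => rw [pow_zero]; exact W.one_mem X
  | succ r ih =>
    have h := W.mul_mem ih (W.cl_mem hD)
    rw [← pow_succ] at h
    have e : 2 * r + 2 * 1 = 2 * (r + 1) := by ring
    rwa [e] at h

lemma pow_alg {D : X.Cycles} (hD : X.IsCyc 1 D) (r : ℕ) : W.cl X D ^ r ∈ Alg W X := by
  induction r with
  | zero => rw [pow_zero]; exact Alg.one
  | succ r ih => rw [pow_succ]; exact Alg.mul ih (Alg.cl hD)

/-- The inverse is algebraic. -/
def InvAlg (W : WeilCohomology.{u, v} ops) (X : 𝒱.Obj) (D : X.Cycles) (i : ℕ) : Prop :=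
  ∃ γ ∈ spanCycles W (X.prod X) i,
    (∀ a ∈ W.gr X i, W.corr γ (W.cl X D ^ (X.dim - i) * a) = a) ∧
    ∀ j, j ≠ 2 * X.dim - i → ∀ a ∈ W.gr X j, W.corr γ a = 0

/-- The operator induced by an external product, with signs. -/
lemma corr_ext_eq {j l : ℕ} {a : W.H X} {b : W.H Y} {x : W.H X} (hb : b ∈ W.gr Y j)
    (hx : x ∈ W.gr X l) : W.corr (ext a b) x = ((-1) ^ (j * l) * W.tr X (a * x)) • b := by
  rw [corr_apply, ext, mul_assoc, W.comm (W.map_mem (snd X Y) hb) (W.map_mem (fst X Y) hx),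
    mul_smul_comm, map_smul, ← mul_assoc, ← map_mul, W.push_snd, smul_smul]

/-- The Lefschetz form on `H^i(X)`. -/
noncomputable def lefForm (W : WeilCohomology.{u, v} ops) (X : 𝒱.Obj) (D : X.Cycles) (i : ℕ) :
    LinearMap.BilinForm W.K (W.gr X i) :=
  LinearMap.mk₂ W.K (fun a b => W.tr X (W.cl X D ^ (X.dim - i) * ((a : W.H X) * b)))
    (fun a b c => by rw [Submodule.coe_add, add_mul, mul_add, map_add])
    (fun r a b => by rw [Submodule.coe_smul, smul_mul_assoc, mul_smul_comm, map_smul])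
    (fun a b c => by rw [Submodule.coe_add, mul_add, mul_add, map_add])
    (fun r a b => by rw [Submodule.coe_smul, mul_smul_comm, mul_smul_comm, map_smul])

lemma lefForm_apply (D : X.Cycles) (i : ℕ) (a b : W.gr X i) :
    lefForm W X D i a b = W.tr X (W.cl X D ^ (X.dim - i) * ((a : W.H X) * b)) := rfl

lemma lefForm_flip (D : X.Cycles) (i : ℕ) (a b : W.gr X i) :
    lefForm W X D i a b = (-1) ^ (i * i) * lefForm W X D i b a := by
  rw [lefForm_apply, lefForm_apply, W.comm a.2 b.2, mul_smul_comm, map_smul, smul_eq_mul]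

lemma tr_pow_comm {D : X.Cycles} (hD : X.IsCyc 1 D) (r : ℕ) (a b : W.H X) :
    W.tr X (a * (W.cl X D ^ r * b)) = W.tr X (W.cl X D ^ r * (a * b)) := by
  rw [← mul_assoc, ← W.even_comm (pow_gr hD r) a, mul_assoc]

lemma hl_surj {D : X.Cycles} (hHL : HardLefschetz W X D) {i : ℕ} (hi : i ≤ X.dim) {c : W.H X}
    (hc : c ∈ W.gr X (2 * X.dim - i)) : ∃ b ∈ W.gr X i, W.cl X D ^ (X.dim - i) * b = c := by
  obtain ⟨b, hb, h⟩ := (hHL i hi).2 c hc
  rw [LinearMap.pow_mulLeft] at h
  exact ⟨b, hb, h⟩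

lemma lefForm_left {D : X.Cycles} (hD : X.IsCyc 1 D) (hHL : HardLefschetz W X D) {i : ℕ}
    (hi : i ≤ X.dim) (a : W.gr X i) (h : ∀ b, lefForm W X D i a b = 0) : a = 0 := by
  apply Subtype.ext
  apply W.nondeg
  intro c
  refine gr_induction (W.isInternal X) (p := fun c => W.tr X (a * c) = 0) ?_ ?_ c
  · intro j c hc
    by_cases hj : i + j = 2 * X.dim
    · obtain rfl : j = 2 * X.dim - i := by omega
      obtain ⟨b, hb, rfl⟩ := hl_surj hHL hi hc
      rw [tr_pow_comm hD]
      exact h ⟨b, hb⟩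
    · exact W.tr_eq_zero (W.mul_mem a.2 hc) hj
  · intro c c' hc hc'
    rw [mul_add, map_add, hc, hc', add_zero]

lemma lefForm_nondeg {D : X.Cycles} (hD : X.IsCyc 1 D) (hHL : HardLefschetz W X D) {i : ℕ}
    (hi : i ≤ X.dim) : (lefForm W X D i).Nondegenerate := by
  constructor
  · intro a h
    exact lefForm_left hD hHL hi a h
  · intro a h
    apply lefForm_left hD hHL hi a
    intro b
    rw [lefForm_flip, h b, mul_zero]

/-- The operator induced by the inverse form. -/
lemma corr_form {D : X.Cycles} (hD : X.IsCyc 1 D) {i n : ℕ}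
    (hi : i ≤ X.dim) (x y : Module.Basis (Fin (n + 1)) W.K (W.gr X i))
    (hxy : ∀ a b, lefForm W X D i (x a) (y b) = if a = b then 1 else 0) :
    (∀ a ∈ W.gr X i, W.corr (∑ b, ext (x b : W.H X) (y b : W.H X))
        (W.cl X D ^ (X.dim - i) * a) = (-1 : W.K) ^ (i * (2 * X.dim - i)) • a) ∧
    ∀ j, j ≠ 2 * X.dim - i → ∀ a ∈ W.gr X j,
      W.corr (∑ b, ext (x b : W.H X) (y b : W.H X)) a = 0 := by
  have hsum : ∀ c : W.H X, W.corr (∑ b, ext (x b : W.H X) (y b : W.H X)) c =
      ∑ b, W.corr (ext (x b : W.H X) (y b : W.H X)) c := by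
    intro c
    rw [corr_apply, Finset.sum_mul, map_sum]
    rfl
  constructor
  · intro a ha
    have hc : W.cl X D ^ (X.dim - i) * a ∈ W.gr X (2 * X.dim - i) := by
      have := W.mul_mem (pow_gr hD (X.dim - i)) ha
      rwa [show 2 * (X.dim - i) + i = 2 * X.dim - i by omega] at this
    rw [hsum]
    have h1 : ∀ b, W.corr (ext (x b : W.H X) (y b : W.H X)) (W.cl X D ^ (X.dim - i) * a) =
        (-1 : W.K) ^ (i * (2 * X.dim - i)) • (lefForm W X D i (x b) ⟨a, ha⟩ • (y b : W.H X)) := by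
      intro b
      rw [corr_ext_eq (y b).2 hc, tr_pow_comm hD, smul_smul]
      rfl
    rw [Finset.sum_congr rfl fun b _ => h1 b, ← Finset.smul_sum]
    congr 1
    have h2 : ∀ b, lefForm W X D i (x b) ⟨a, ha⟩ = y.repr ⟨a, ha⟩ b := by
      intro b
      conv_lhs => rw [← y.sum_repr ⟨a, ha⟩]
      rw [map_sum, Finset.sum_eq_single b]
      · rw [map_smul, hxy, if_pos rfl, smul_eq_mul, mul_one]
      · intro c _ hc
        rw [map_smul, hxy, if_neg (Ne.symm hc), smul_zero]
      · intro h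
        exact absurd (Finset.mem_univ b) h
    have h3 := congrArg (fun z : W.gr X i => (z : W.H X)) (y.sum_repr ⟨a, ha⟩)
    simp only [Submodule.coe_sum, Submodule.coe_smul] at h3
    exact (Finset.sum_congr rfl fun b _ => by rw [h2]).trans h3
  · intro j hj a ha
    rw [hsum]
    refine Finset.sum_eq_zero fun b _ => ?_
    rw [corr_ext_eq (y b).2 ha, W.tr_eq_zero (W.mul_mem (x b).2 ha) (by omega), mul_zero,
      zero_smul]

/-- A basis as a basis of the subspace. -/
lemma exists_basis {i n : ℕ} {v : Fin (n + 1) → W.H X} (h : IsBasisOf W X i n v) :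
    ∃ y : Module.Basis (Fin (n + 1)) W.K (W.gr X i), ∀ j, (y j : W.H X) = v j :=
  ⟨(Module.Basis.span h.1).map (LinearEquiv.ofEq _ _ h.2), fun j => by
    rw [Module.Basis.map_apply, LinearEquiv.coe_ofEq_apply, Module.Basis.span_apply]⟩

lemma isBasisOf {i n : ℕ} (y : Module.Basis (Fin (n + 1)) W.K (W.gr X i)) :
    IsBasisOf W X i n fun j => (y j : W.H X) := by
  constructor
  · exact y.linearIndependent.map' (W.gr X i).subtype (Submodule.ker_subtype _)
  · have h : Set.range (fun j => (y j : W.H X)) = (W.gr X i).subtype '' Set.range y := by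
      rw [← Set.range_comp]
      rfl
    rw [h, ← Submodule.map_span, y.span_eq, Submodule.map_top, Submodule.range_subtype]

/-- Dual bases. -/
lemma exists_dual {D : X.Cycles} (hD : X.IsCyc 1 D) (hHL : HardLefschetz W X D) {i : ℕ}
    (hi : i ≤ X.dim) {n : ℕ} (y : Module.Basis (Fin (n + 1)) W.K (W.gr X i)) :
    ∃ x : Module.Basis (Fin (n + 1)) W.K (W.gr X i),
      ∀ a b, lefForm W X D i (x a) (y b) = if a = b then 1 else 0 := by
  refine ⟨LinearMap.BilinForm.dualBasis _ (lefForm_nondeg hD hHL hi) y, fun a b => ?_⟩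
  rw [LinearMap.BilinForm.apply_dualBasis_left]
  simp only [eq_comm]

/-- The inverse form is a combination of classes of cycles if the inverse operator is. -/
lemma form_of_inverse {D : X.Cycles} (hD : X.IsCyc 1 D) (hHL : HardLefschetz W X D) {i n : ℕ}
    (hi : i ≤ X.dim) (x y : Module.Basis (Fin (n + 1)) W.K (W.gr X i))
    (hxy : ∀ a b, lefForm W X D i (x a) (y b) = if a = b then 1 else 0)
    {γ : W.H (X.prod X)} (hγ : γ ∈ spanCycles W (X.prod X) i)
    (h1 : ∀ a ∈ W.gr X i, W.corr γ (W.cl X D ^ (X.dim - i) * a) = a)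
    (h2 : ∀ j, j ≠ 2 * X.dim - i → ∀ a ∈ W.gr X j, W.corr γ a = 0) :
    ∑ b, ext (x b : W.H X) (y b : W.H X) ∈ Alg W (X.prod X) := by
  obtain ⟨h3, h4⟩ := corr_form hD hi x y hxy
  set G := ∑ b, ext (x b : W.H X) (y b : W.H X) with hG
  have h5 : (-1 : W.K) ^ (i * (2 * X.dim - i)) • γ = G := by
    rw [← sub_eq_zero]
    apply corr_inj'
    have h6 : W.corr ((-1 : W.K) ^ (i * (2 * X.dim - i)) • γ) = W.corr G := by
      apply gr_ext (W.isInternal X)
      intro j c hc
      rw [W.corr_smul, LinearMap.smul_apply]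
      by_cases hj : j = 2 * X.dim - i
      · subst hj
        obtain ⟨b, hb, rfl⟩ := hl_surj hHL hi hc
        rw [h1 b hb, h3 b hb]
      · rw [h2 j hj c hc, h4 j hj c hc, smul_zero]
    have h7 : W.corr ((-1 : W.K) ^ (i * (2 * X.dim - i)) • γ - G) + W.corr G =
        W.corr ((-1 : W.K) ^ (i * (2 * X.dim - i)) • γ) := by
      rw [← W.corr_add, sub_add_cancel]
    rw [h6] at h7
    exact add_eq_right.1 h7
  rw [← h5]
  exact Submodule.smul_mem _ _ (span_le_alg hγ)

/-- **The criterion in one degree.** -/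
theorem inverse_iff_det {D : X.Cycles} (hD : X.IsCyc 1 D) (hHL : HardLefschetz W X D) {i : ℕ}
    (hi : i ≤ X.dim) : InvAlg W X D i ↔ DetSquareAlgebraic W X i := by
  constructor
  · rintro ⟨γ, hγ, h1, h2⟩ n v hv
    obtain ⟨y, hy⟩ := exists_basis hv
    obtain rfl : (fun j => (y j : W.H X)) = v := funext hy
    obtain ⟨x, hxy⟩ := exists_dual hD hHL hi y
    have h6 := form_of_inverse hD hHL hi x y hxy hγ h1 h2
    have h7 := det_alg (fun b => (x b).2) (fun b => (y b).2) h6
    obtain ⟨r, hr⟩ := det_change (W := W) x y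
    have h8 : ext (detClass W n fun j => (y j : W.H X)) (detClass W n fun j => (y j : W.H X)) ∈
        Alg W ((pow X n).prod (pow X n)) := by
      nth_rewrite 1 [hr]
      rw [ext_smul_left]
      exact Submodule.smul_mem _ _ h7
    refine alg_span h8 ?_
    have h9 := detClass_mem (W := W) n (fun b => (y b).2)
    have h10 := W.mul_mem (W.map_mem (fst (pow X n) (pow X n)) h9)
      (W.map_mem (snd (pow X n) (pow X n)) h9)
    rwa [← two_mul] at h10
  · intro h
    by_cases h0 : Module.finrank W.K (W.gr X i) = 0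
    · have h1 : W.gr X i = ⊥ := Submodule.finrank_eq_zero.1 h0
      refine ⟨0, Submodule.zero_mem _, fun a ha => ?_, fun j _ a _ => ?_⟩
      · rw [h1] at ha
        rw [(Submodule.mem_bot _).1 ha, W.corr_zero]
        rfl
      · rw [W.corr_zero]
        rfl
    · obtain ⟨n, hn⟩ := Nat.exists_eq_succ_of_ne_zero h0
      set y := Module.finBasisOfFinrankEq W.K (W.gr X i) hn with hy
      obtain ⟨x, hxy⟩ := exists_dual hD hHL hi y
      have h1 := span_le_alg (h n _ (isBasisOf y))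
      obtain ⟨r, hr⟩ := det_change (W := W) y x
      have h2 : ext (detClass W n fun j => (x j : W.H X)) (detClass W n fun j => (y j : W.H X)) ∈
          Alg W ((pow X n).prod (pow X n)) := by
        rw [hr, ext_smul_left]
        exact Submodule.smul_mem _ _ h1
      have h3 := form_alg (pow_gr hD (X.dim - i)) (pow_alg hD (X.dim - i)) (fun b => (x b).2)
        (fun b => (y b).2) (fun a b => by rw [← lefForm_apply, hxy]) h2
      obtain ⟨h4, h5⟩ := corr_form hD hi x y hxy
      refine ⟨(-1 : W.K) ^ (i * (2 * X.dim - i)) • ∑ b, ext (x b : W.H X) (y b : W.H X),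
        Submodule.smul_mem _ _ (alg_span h3 ?_), fun a ha => ?_, fun j hj a ha => ?_⟩
      · refine Submodule.sum_mem _ fun b _ => ?_
        have h10 := W.mul_mem (W.map_mem (fst X X) (x b).2) (W.map_mem (snd X X) (y b).2)
        rwa [← two_mul] at h10
      · rw [W.corr_smul, LinearMap.smul_apply, h4 a ha, smul_smul, ← pow_add, ← two_mul, pow_mul,
          neg_one_sq, one_pow, one_smul]
      · rw [W.corr_smul, LinearMap.smul_apply, h5 j hj a ha, smul_zero]

lemma invAlg_iff {D : X.Cycles} (hHL : HardLefschetz W X D) {i : ℕ} (hi : i ≤ X.dim) :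
    InverseAlgebraic W X D i ↔ InvAlg W X D i := by
  constructor
  · rintro ⟨γ, hγ, ⟨h1, -⟩, h2⟩
    exact ⟨γ, hγ, h1, h2⟩
  · rintro ⟨γ, hγ, h1, h2⟩
    refine ⟨γ, hγ, ⟨h1, fun b hb => ?_⟩, h2⟩
    obtain ⟨a, ha, rfl⟩ := hl_surj hHL hi hb
    change W.cl X D ^ (X.dim - i) * W.corr γ (W.cl X D ^ (X.dim - i) * a) = _
    rw [h1 a ha]

end Pool.Agent.Helper70Ls
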