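import Pool.Agent.Helper70_ls.Det5
import Pool.Agent.W537.OneCycleB

/-!
# The Lefschetz standard conjecture and the determinant lines
-/

open CategoryTheory AlgebraicGeometry

universe u v

namespace Pool.Agent.Helper70Ls

open Pool.Agent.H914 Pool.Agent.H914.VarClass Pool.Agent.H914.VarClass.Obj
  Pool.Agent.H914.WeilCohomology Pool.Agent.Helper70Rk

variable {k : Type u} [Field k] {𝒱 : VarClass k} {ops : CycleOps 𝒱}
  {W : WeilCohomology.{u, v} ops} {X Y Z : 𝒱.Obj}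

lemma lefschetzB_of_inverse {D : X.Cycles} (hD : X.IsCyc 1 D) (hHL : HardLefschetz W X D)
    (h : ∀ i ≤ X.dim, InvAlg W X D i) : LefschetzB W X D := by
  apply lefschetzB_of_inj hD hHL
  intro c hc
  obtain ⟨γ, hγ, h1, -⟩ := h (X.dim - c) (by omega)
  refine ⟨W.corr γ, mem_KOp_iff.2 ⟨γ, ?_, rfl⟩, fun a ha h0 => ?_⟩
  · have e : (X.dim : ℤ) + -(c : ℤ) = ((X.dim - c : ℕ) : ℤ) := by omega
    rw [e]
    exact hγ
  · obtain ⟨b, hb, rfl⟩ := hl_surj hHL (i := X.dim - c) (by omega)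
      (by rwa [show 2 * X.dim - (X.dim - c) = X.dim + c by omega])
    rw [h1 b hb] at h0
    rw [h0, mul_zero]

lemma inverse_of_lefschetzB {D : X.Cycles} (hD : X.IsCyc 1 D) (hHL : HardLefschetz W X D)
    (hB : LefschetzB W X D) : ∀ i ≤ X.dim, InvAlg W X D i := by
  obtain ⟨Φ, hΦ, hLam⟩ := lefschetzB_iff_rop.1 hB
  have hLh : IsHom (W.gr X) 2 (LinearMap.mulLeft W.K (W.cl X D)) := by
    simpa using rop_opAlg.hom (rop_mulLeft (W := W) hD)
  have hW : ∀ i ≤ X.dim, ∃ z, Pool.Agent.W537.InvertsLefschetz W X D i z := by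
    intro i hi
    have h1 : ROp W X (-((X.dim - i : ℕ) : ℤ)) (Φ ^ (X.dim - i)) := by
      exact rop_opAlg.cast (rop_opAlg.pow hΦ (X.dim - i)) (by ring)
    obtain ⟨F, hF, hF'⟩ := h1
    obtain ⟨z, hz, hz'⟩ := Pool.Agent.W537.cyc_of_realized hi hF
    have h2 : ∀ a ∈ W.gr X i, (Φ ^ (X.dim - i)) (W.cl X D ^ (X.dim - i) * a) = a := by
      intro a ha
      have h3 := lam_pow_L_pow hLh W_hbd hHL hLam (c := X.dim - i) (by omega)
        (a := a) (by rwa [show X.dim - (X.dim - i) = i by omega])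
      rw [LinearMap.pow_mulLeft] at h3
      exact h3
    refine ⟨z, hz, ?_⟩
    have h4 : Pool.Agent.W537.cycOp W X z = Φ ^ (X.dim - i) := by
      rw [← hF', hz']
      rfl
    rw [h4]
    refine ⟨fun a ha => h2 a ha, fun b hb => ?_⟩
    obtain ⟨a, ha, rfl⟩ := hl_surj hHL hi hb
    rw [h2 a ha]
    rfl
  obtain ⟨Λ, hΛ⟩ := Pool.Agent.W537.oneCycle hD le_rfl W hW
  have h5 := ((hΛ W).out 0 2).1 (fun _ _ => rfl)
  intro i hi
  obtain ⟨⟨h6, h7⟩, h8⟩ := h5 i hi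
  exact ⟨W.cl _ (Λ i), Submodule.subset_span ⟨i, rfl, _, h6, rfl⟩, fun a ha => h7.1 a ha,
    fun j hj a ha => h8 j hj a ha⟩

theorem lefschetzB_iff_det {D : X.Cycles} (hD : X.IsCyc 1 D) (hHL : HardLefschetz W X D) :
    LefschetzB W X D ↔ ∀ i ≤ X.dim, DetSquareAlgebraic W X i := by
  constructor
  · intro h i hi
    exact (inverse_iff_det hD hHL hi).1 (inverse_of_lefschetzB hD hHL h i hi)
  · intro h
    exact lefschetzB_of_inverse hD hHL fun i hi => (inverse_iff_det hD hHL hi).2 (h i hi)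

end Pool.Agent.Helper70Ls
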