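import Mathlib

/-!
# Powers of a nondegenerate two-form
-/

open scoped CliffordAlgebra

namespace Pool.Agent.Helper70Ls

variable {K V : Type*} [Field K] [CharZero K] [AddCommGroup V] [Module K V] {N : ℕ}

section

variable (x y : Fin N → V)

variable (K) in
/-- The two-form. -/
noncomputable def om : ExteriorAlgebra K V :=
  ∑ a, ExteriorAlgebra.ι K (x a) * ExteriorAlgebra.ι K (y a)

omit [CharZero K] in
lemma ι_swap (v w : V) : ExteriorAlgebra.ι K v * ExteriorAlgebra.ι K w =
    -(ExteriorAlgebra.ι K w * ExteriorAlgebra.ι K v) :=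
  eq_neg_of_add_eq_zero_left (ExteriorAlgebra.ι_add_mul_swap v w)

omit [CharZero K] in
lemma om_comm (w : V) : om K x y * ExteriorAlgebra.ι K w =
    ExteriorAlgebra.ι K w * om K x y := by
  rw [om, Finset.sum_mul, Finset.mul_sum]
  refine Finset.sum_congr rfl fun a _ => ?_
  rw [mul_assoc, ι_swap (y a) w, mul_neg, ← mul_assoc, ι_swap (x a) w, neg_mul, neg_neg, mul_assoc]

end

/-- The contraction. -/
noncomputable def con (d : Module.Dual K V) : ExteriorAlgebra K V →ₗ[K] ExteriorAlgebra K V :=
  CliffordAlgebra.contractLeft d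

omit [CharZero K] in
lemma con_ι_mul (d : Module.Dual K V) (v : V) (e : ExteriorAlgebra K V) :
    con d (ExteriorAlgebra.ι K v * e) = d v • e - ExteriorAlgebra.ι K v * con d e :=
  CliffordAlgebra.contractLeft_ι_mul _ _ _

omit [CharZero K] in
lemma con_one (d : Module.Dual K V) : con d (1 : ExteriorAlgebra K V) = 0 :=
  CliffordAlgebra.contractLeft_one _ _

variable (q : LinearMap.BilinForm K V) (x y : Module.Basis (Fin N) K V)

omit [CharZero K] in
lemma con_om (halt : ∀ a b, q a b = -q b a)
    (hxy : ∀ a b, q (x a) (y b) = if a = b then 1 else 0) (w : V) (e : ExteriorAlgebra K V) :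
    con (q.flip w) (om K x y * e) = (2 : K) • (ExteriorAlgebra.ι K w * e) +
      om K x y * con (q.flip w) e := by
  have h1 : ∑ a, q (x a) w • y a = w := by
    have h2 : ∀ a, q (x a) w = y.repr w a := by
      intro a
      conv_lhs => rw [← y.sum_repr w]
      rw [map_sum, Finset.sum_eq_single a]
      · rw [map_smul, hxy, if_pos rfl, smul_eq_mul, mul_one]
      · intro c _ hc
        rw [map_smul, hxy, if_neg (Ne.symm hc), smul_zero]
      · intro h
        exact absurd (Finset.mem_univ a) h
    rw [Finset.sum_congr rfl fun a _ => by rw [h2 a]]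
    exact y.sum_repr w
  have h1' : ∑ a, q (y a) w • x a = -w := by
    have h2 : ∀ a, q (y a) w = -x.repr w a := by
      intro a
      rw [halt]
      congr 1
      conv_lhs => rw [← x.sum_repr w]
      rw [map_sum, LinearMap.sum_apply, Finset.sum_eq_single a]
      · rw [map_smul, LinearMap.smul_apply, hxy, if_pos rfl, smul_eq_mul, mul_one]
      · intro c _ hc
        rw [map_smul, LinearMap.smul_apply, hxy, if_neg hc, smul_zero]
      · intro h
        exact absurd (Finset.mem_univ a) h
    rw [Finset.sum_congr rfl fun a _ => by rw [h2 a, neg_smul], Finset.sum_neg_distrib]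
    congr 1
    exact x.sum_repr w
  have h3 : ∀ a, con (q.flip w) (ExteriorAlgebra.ι K (x a) * ExteriorAlgebra.ι K (y a) * e) =
      ExteriorAlgebra.ι K (q (x a) w • y a) * e - ExteriorAlgebra.ι K (q (y a) w • x a) * e +
        ExteriorAlgebra.ι K (x a) * ExteriorAlgebra.ι K (y a) * con (q.flip w) e := by
    intro a
    rw [mul_assoc, con_ι_mul, con_ι_mul, map_smul, map_smul, smul_mul_assoc, smul_mul_assoc,
      mul_sub, mul_smul_comm, mul_assoc]
    change q (x a) w • _ - (q (y a) w • _ - _) = _
    abel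
  rw [om, Finset.sum_mul, map_sum, Finset.sum_congr rfl fun a _ => h3 a, Finset.sum_add_distrib,
    Finset.sum_sub_distrib, ← Finset.sum_mul, ← Finset.sum_mul, ← map_sum, ← map_sum, h1, h1',
    Finset.sum_mul, map_neg, neg_mul, sub_neg_eq_add, two_smul]

omit [CharZero K] in
lemma con_om_pow (halt : ∀ a b, q a b = -q b a)
    (hxy : ∀ a b, q (x a) (y b) = if a = b then 1 else 0) (w : V) (m : ℕ) :
    con (q.flip w) (om K x y ^ (m + 1)) =
      (2 * (m + 1) : K) • (ExteriorAlgebra.ι K w * om K x y ^ m) := by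
  induction m with
  | zero =>
    have h := con_om q x y halt hxy w 1
    rw [mul_one, mul_one, con_one, mul_zero, add_zero] at h
    rw [zero_add, pow_one, pow_zero, mul_one, h]
    congr 1
    push_cast
    ring
  | succ m ih =>
    rw [pow_succ', con_om q x y halt hxy, ih, mul_smul_comm, ← mul_assoc, om_comm, mul_assoc,
      ← pow_succ', ← add_smul]
    congr 1
    push_cast
    ring

lemma om_pow_eq (halt : ∀ a b, q a b = -q b a)
    (hxy : ∀ a b, q (x a) (y b) = if a = b then 1 else 0) (m : ℕ) (h : om K x y ^ (m + 1) = 0) :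
    (N : K) • om K x y ^ m = (2 * m : K) • om K x y ^ m := by
  have h1 : ∀ w, ExteriorAlgebra.ι K w * om K x y ^ m = 0 := by
    intro w
    have h2 := con_om_pow q x y halt hxy w m
    rw [h, map_zero] at h2
    refine (smul_eq_zero.1 h2.symm).resolve_left ?_
    exact mul_ne_zero two_ne_zero (by exact_mod_cast Nat.succ_ne_zero m)
  have h2 : ∀ a, om K x y ^ m = (2 * m : K) •
      (ExteriorAlgebra.ι K (x a) * ExteriorAlgebra.ι K (y a) * om K x y ^ (m - 1)) := by
    intro a
    have h3 := con_ι_mul (q.flip (x a)) (y a) (om K x y ^ m)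
    rw [h1, map_zero] at h3
    have h4 : (q.flip (x a)) (y a) = -1 := by
      change q (y a) (x a) = -1
      rw [halt, hxy, if_pos rfl]
    rw [h4, neg_smul, one_smul] at h3
    have h5 : om K x y ^ m = -(ExteriorAlgebra.ι K (y a) * con (q.flip (x a)) (om K x y ^ m)) := by
      have h6 : om K x y ^ m + ExteriorAlgebra.ι K (y a) * con (q.flip (x a)) (om K x y ^ m) = 0 := by
        have := congrArg Neg.neg h3
        rw [neg_zero, neg_sub, sub_neg_eq_add] at this
        rw [add_comm]
        exact this.symm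
      exact eq_neg_of_add_eq_zero_left h6
    cases m with
    | zero =>
      rw [pow_zero, con_one, mul_zero, neg_zero] at h5
      rw [pow_zero, h5]
      simp
    | succ m =>
      nth_rewrite 1 [h5]
      rw [con_om_pow q x y halt hxy, mul_smul_comm, ← smul_neg, ← mul_assoc, ← neg_mul,
        ← ι_swap, Nat.add_sub_cancel]
      push_cast
      rfl
  have h3 : (N : K) • om K x y ^ m = ∑ _a : Fin N, om K x y ^ m := by
    rw [Finset.sum_const, Finset.card_univ, Fintype.card_fin, ← Nat.cast_smul_eq_nsmul K]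
  rw [h3]
  cases m with
  | zero =>
    have h4 := fun a => h2 a
    rw [Finset.sum_congr rfl fun a _ => h2 a]
    simp
  | succ m =>
    rw [Finset.sum_congr rfl fun a _ => h2 a, ← Finset.smul_sum, ← Finset.sum_mul]
    rw [Nat.add_sub_cancel, pow_succ']
    rfl

/-- The top power of the form. -/
theorem exists_top (halt : ∀ a b, q a b = -q b a)
    (hxy : ∀ a b, q (x a) (y b) = if a = b then 1 else 0) (M : ℕ) (hM : om K x y ^ M = 0) :
    ∃ m, N = 2 * m ∧ om K x y ^ m ≠ 0 := by
  classical
  have h0 : ∃ m, om K x y ^ m = 0 := ⟨M, hM⟩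
  have h1 := Nat.find_spec h0
  have h2 : Nat.find h0 ≠ 0 := by
    intro h
    rw [h, pow_zero] at h1
    exact one_ne_zero h1
  obtain ⟨m, hm⟩ := Nat.exists_eq_succ_of_ne_zero h2
  have h3 : om K x y ^ m ≠ 0 := Nat.find_min h0 (by omega)
  rw [hm] at h1
  have h4 := om_pow_eq q x y halt hxy m h1
  refine ⟨m, ?_, h3⟩
  rw [← sub_eq_zero, ← sub_smul] at h4
  have h5 := (smul_eq_zero.1 h4).resolve_right h3
  rw [sub_eq_zero] at h5
  exact_mod_cast h5

end Pool.Agent.Helper70Ls
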