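import Pool.Agent.Helper70_ls.Det7

/-!
# Rational coefficients in one degree
-/

open CategoryTheory AlgebraicGeometry Finset

universe u v

namespace Pool.Agent.Helper70Ls

open Pool.Agent.H914 Pool.Agent.H914.VarClass Pool.Agent.H914.VarClass.Obj
  Pool.Agent.H914.WeilCohomology Pool.Agent.Helper70Rk Pool.Agent.W537

section

variable {K : Type*} [Field K] [CharZero K] {V : Type*} [AddCommGroup V] [Module K V]
  [Module.Finite K V] {gr : ℕ → Submodule K V} {R : ℤ → Module.End K V → Prop} {n : ℕ}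
  {L : Module.End K V}

/-- Descent of the coefficients of the inverse in one degree, in the presence of the projector. -/
theorem descent_one (hR : OpAlg gr R) (h : DirectSum.IsInternal gr)
    (hstr : ∀ y, R 0 y → ∃ q : ℚ, LinearMap.trace K V (par h * y) = q) (hL : R 1 L) {i c : ℕ}
    (hPR : R 0 (proj h i)) {T : Module.End K V} (hT : T ∈ KS R (-c))
    (hTh : ∀ a ∈ gr i, T ((L ^ c) a) = a) :
    ∃ θ, R (-c) θ ∧ (∀ a ∈ gr i, θ ((L ^ c) a) = a) ∧
      ∀ j : ℕ, j ≠ i + 2 * c → ∀ a ∈ gr j, θ a = 0 := by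
  obtain ⟨ret, hret⟩ := exists_retract K
  set P := proj h i with hP
  have hPP : P * P = P := proj_mul_proj h i
  have hTP : ∀ a, T ((L ^ c) (P a)) = P a := fun a => hTh _ (H914.proj_mem h _ a)
  obtain ⟨z, hzR, hz⟩ := hR.exists_twist h hstr (ret := ret) hT
  have hLc : R c (L ^ c) := hR.cast (hR.pow hL c) (by ring)
  set g := P * z * L ^ c * P with hg
  have hgR : R 0 g :=
    hR.cast (hR.mul (hR.mul (hR.mul hPR hzR) hLc) hPR) (by ring)
  set u := g - P with hu
  have huR : R 0 u := hR.sub hgR hPR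
  have hPu : P * u = u := by
    rw [hu, mul_sub, hPP, hg, ← mul_assoc, ← mul_assoc, ← mul_assoc, hPP]
  have hparP : par h * P = (-1 : K) ^ i • P := by
    apply LinearMap.ext
    intro a
    rw [Module.End.mul_apply, par, scal_apply h _ (H914.proj_mem h _ a), LinearMap.smul_apply]
  have hunil : IsNilpotent u := by
    apply isNilpotent_of_trace_pow
    intro r
    have hur : R 0 (u ^ r) := hR.cast (hR.pow huR r) (by ring)
    have e1 : LinearMap.trace K V (par h * u ^ (r + 1)) =
        (-1 : K) ^ i * LinearMap.trace K V (u ^ (r + 1)) := by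
      have : u ^ (r + 1) = P * u ^ (r + 1) := by rw [pow_succ', ← mul_assoc, hPu]
      rw [this, ← mul_assoc, hparP, smul_mul_assoc, map_smul, smul_eq_mul]
    obtain ⟨q, hq⟩ := hstr (P * u ^ r) (hR.cast (hR.mul hPR hur) (by ring))
    have e2 : LinearMap.trace K V (par h * u ^ (r + 1)) = 0 := by
      have e3 : u ^ (r + 1) = P * (z * (L ^ c * (P * u ^ r))) - P * u ^ r := by
        rw [pow_succ']
        nth_rewrite 1 [hu]
        rw [sub_mul, hg]
        simp only [mul_assoc]
      have e4 : LinearMap.trace K V (par h * (P * (z * (L ^ c * (P * u ^ r))))) = q := by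
        rw [str_comm h (hR.hom hPR), mul_assoc z, hz]
        · have : T * (L ^ c * (P * u ^ r) * P) = P * u ^ r * P := by
            apply LinearMap.ext
            intro a
            simp only [Module.End.mul_apply]
            exact hTP _
          rw [this, ← str_comm h (hR.hom hPR), ← mul_assoc P P, hPP, hq, ret_ratCast hret]
        · exact hR.cast (hR.mul (hR.mul hLc (hR.mul hPR hur)) hPR) (by ring)
      rw [e3, mul_sub, map_sub, e4, hq, sub_self]
    rw [e1] at e2
    exact (mul_eq_zero.1 e2).resolve_left (pow_ne_zero _ (neg_ne_zero.2 one_ne_zero))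
  obtain ⟨M, hM⟩ := hunil
  refine ⟨(∑ k ∈ range M, (-u) ^ k) * (P * z), ?_, ?_, ?_⟩
  · have h1 : R 0 (∑ k ∈ range M, (-u) ^ k) :=
      hR.sum fun k _ => hR.cast (hR.pow (hR.neg huR) k) (by ring)
    exact hR.cast (hR.mul h1 (hR.mul hPR hzR)) (by ring)
  · intro a ha
    have h1 : (P * z) ((L ^ c) a) = (1 - -u) a := by
      have h2 : g a = (P * z) ((L ^ c) a) := by
        rw [hg, Module.End.mul_apply, Module.End.mul_apply, hP, proj_same h ha]
      rw [← h2, LinearMap.sub_apply, LinearMap.neg_apply, hu, LinearMap.sub_apply,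
        Module.End.one_apply, hP, proj_same h ha]
      abel
    rw [Module.End.mul_apply, h1, ← Module.End.mul_apply, geom_sum_mul_neg, neg_pow, hM, mul_zero,
      sub_zero, Module.End.one_apply]
  · intro j hj a ha
    have h1 : (P * z) a = 0 := by
      rw [Module.End.mul_apply]
      have h2 := hR.hom hzR j a (by rw [grZ_natCast]; exact ha)
      by_cases h3 : 0 ≤ (j : ℤ) + 2 * -(c : ℤ)
      · obtain ⟨l, hl⟩ := Int.eq_ofNat_of_zero_le h3
        rw [hl] at h2
        have h4 : z a ∈ grZ gr (l : ℤ) := h2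
        rw [grZ_natCast] at h4
        exact proj_ne h h4 (by omega)
      · rw [grZ_of_neg (by omega)] at h2
        rw [(Submodule.mem_bot _).1 h2, map_zero]
    rw [Module.End.mul_apply, h1, map_zero]

end

variable {k : Type u} [Field k] {𝒱 : VarClass k} {ops : CycleOps 𝒱}
  {W : WeilCohomology.{u, v} ops} {X Y Z : 𝒱.Obj}

/-- With an algebraic Kunneth projector, the inverse with rational coefficients. -/
theorem inverts_iff_inverse {D : X.Cycles} (hD : X.IsCyc 1 D) (hHL : HardLefschetz W X D) {i : ℕ}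
    (hi : i ≤ X.dim) {P : (X.prod X).Cycles} (hP : (X.prod X).IsCyc X.dim P)
    (hP' : InducesProjector W X i P) :
    (∃ z, InvertsLefschetz W X D i z) ↔ InvAlg W X D i := by
  have hproj : W.corr (W.cl (X.prod X) P) = proj (W.isInternal X) i := by
    apply gr_ext (W.isInternal X)
    intro j a ha
    rw [hP' j a ha]
    by_cases hj : j = i
    · subst hj
      rw [if_pos rfl, proj_same _ ha]
    · rw [if_neg hj, proj_ne _ ha hj]
  have hPR : ROp W X 0 (proj (W.isInternal X) i) := by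
    rw [← hproj]
    exact ⟨fun W => W.corr (W.cl _ P), Or.inl ⟨X.dim, by simp, P, hP, fun _ => rfl⟩, rfl⟩
  have main : ∀ T ∈ KS (ROp W X) (-((X.dim - i : ℕ) : ℤ)),
      (∀ a ∈ W.gr X i, T (W.cl X D ^ (X.dim - i) * a) = a) →
      ∃ z, (X.prod X).IsCyc i z ∧
        (∀ a ∈ W.gr X i, W.corr (W.cl (X.prod X) z) (W.cl X D ^ (X.dim - i) * a) = a) ∧
        ∀ j, j ≠ 2 * X.dim - i → ∀ a ∈ W.gr X j, W.corr (W.cl (X.prod X) z) a = 0 := by
    intro T hT hT'
    obtain ⟨θ, hθ, h1, h2⟩ := descent_one rop_opAlg (W.isInternal X) rop_str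
      (rop_mulLeft (W := W) hD) hPR (c := X.dim - i) hT
      (fun a ha => by rw [LinearMap.pow_mulLeft]; exact hT' a ha)
    obtain ⟨F, hF, hF'⟩ := hθ
    obtain ⟨z, hz, hz'⟩ := cyc_of_realized hi hF
    rw [LinearMap.pow_mulLeft] at h1
    rw [← hF', hz'] at h1 h2
    exact ⟨z, hz, h1, fun j hj a ha => h2 j (by omega) a ha⟩
  constructor
  · rintro ⟨z, hz, h1, -⟩
    have h3 : W.corr (W.cl (X.prod X) z) ∈ KS (ROp W X) (-((X.dim - i : ℕ) : ℤ)) :=
      Submodule.subset_span ⟨fun W => W.corr (W.cl _ z),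
        Or.inl ⟨i, by omega, z, hz, fun _ => rfl⟩, rfl⟩
    obtain ⟨w, hw, h4, h5⟩ := main _ h3 h1
    exact ⟨W.cl (X.prod X) w, Submodule.subset_span ⟨i, rfl, w, hw, rfl⟩, h4, h5⟩
  · rintro ⟨γ, hγ, h1, h2⟩
    have h3 : W.corr γ ∈ KS (ROp W X) (-((X.dim - i : ℕ) : ℤ)) := by
      rw [mem_KS_iff, mem_KOp_iff]
      refine ⟨γ, ?_, rfl⟩
      have e : (X.dim : ℤ) + -((X.dim - i : ℕ) : ℤ) = (i : ℤ) := by omega
      rw [e]
      exact hγ
    obtain ⟨w, hw, h4, -⟩ := main _ h3 h1
    refine ⟨w, hw, fun a ha => h4 a ha, fun b hb => ?_⟩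
    obtain ⟨a, ha, rfl⟩ := hl_surj hHL hi hb
    change W.cl X D ^ (X.dim - i) * W.corr (W.cl (X.prod X) w) (W.cl X D ^ (X.dim - i) * a) = _
    rw [h4 a ha]

/-- Algebraicity of the determinant line implies that of its square. -/
lemma detSquare_of_det {i : ℕ} (h : DetAlgebraic W X i) : DetSquareAlgebraic W X i := by
  intro n v hv
  obtain ⟨p, hp, h1⟩ := h n v hv
  have h2 := span_le_alg h1
  refine alg_span (Alg.mul (Alg.map _ h2) (Alg.map _ h2)) ?_
  have hvg : ∀ j, v j ∈ W.gr X i := fun j => by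
    rw [← hv.2]
    exact Submodule.subset_span ⟨j, rfl⟩
  have h9 := detClass_mem (W := W) n hvg
  have h10 := W.mul_mem (W.map_mem (fst (pow X n) (pow X n)) h9)
    (W.map_mem (snd (pow X n) (pow X n)) h9)
  rwa [← two_mul] at h10

/-- **The criterion in odd degrees.** -/
theorem inverse_iff_det_odd {D : X.Cycles} (hD : X.IsCyc 1 D) (hHL : HardLefschetz W X D) {i : ℕ}
    (hi : i ≤ X.dim) (hodd : Odd i) : InvAlg W X D i ↔ DetAlgebraic W X i := by
  constructor
  · rintro ⟨γ, hγ, h1, h2⟩ n v hv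
    obtain ⟨y, hy⟩ := exists_basis hv
    obtain rfl : (fun j => (y j : W.H X)) = v := funext hy
    obtain ⟨x, hxy⟩ := exists_dual hD hHL hi y
    have h6 := form_of_inverse hD hHL hi x y hxy hγ h1 h2
    obtain ⟨⟨p, hp⟩, h7⟩ := det_odd (lefForm W X D i) (fun a b => by
      rw [lefForm_flip, (hodd.mul hodd).neg_one_pow, neg_one_mul]) x y hxy h6
    refine ⟨p, hp, alg_span h7 ?_⟩
    have h9 := detClass_mem (W := W) n (fun b => (y b).2)
    rwa [hp] at h9
  · intro h
    exact (inverse_iff_det hD hHL hi).2 (detSquare_of_det h)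

end Pool.Agent.Helper70Ls
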