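import Pool.Agent.Helper70_ls.Det8

/-!
# Powers of the determinant line
-/

open CategoryTheory AlgebraicGeometry

universe u v

namespace Pool.Agent.Helper70Ls

open Pool.Agent.H914 Pool.Agent.H914.VarClass Pool.Agent.H914.VarClass.Obj
  Pool.Agent.H914.WeilCohomology Pool.Agent.Helper70Rk Pool.Agent.W537

variable {k : Type u} [Field k] {𝒱 : VarClass k} {ops : CycleOps 𝒱}
  {W : WeilCohomology.{u, v} ops} {X Y Z : 𝒱.Obj}

/-- The determinant line is nondegenerate. -/
lemma tr_det {ρ : W.H X} {p : ℕ} (hρ : ρ ∈ W.gr X (2 * p)) {i' i n : ℕ}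
    {x y : Fin (n + 1) → W.H X} (hx : ∀ b, x b ∈ W.gr X i') (hy : ∀ b, y b ∈ W.gr X i)
    (hxy : ∀ a b, W.tr X (ρ * (x a * y b)) = if a = b then 1 else 0) :
    W.tr (pow X n) (xpow ρ n * (detClass W n x * detClass W n y)) ≠ 0 := by
  obtain ⟨s, hs, hs'⟩ := tr_words (W := W) hρ i' i n
  have h2 : ∀ σ τ : Equiv.Perm (Fin (n + 1)),
      W.tr (pow X n) (xpow ρ n * ((extFam W n fun j => x (σ j)) * extFam W n fun j => y (τ j))) =
        if σ = τ then s else 0 := by
    intro σ τ
    rw [hs' _ _ (fun j => hx _) (fun j => hy _)]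
    by_cases hστ : σ = τ
    · subst hστ
      rw [if_pos rfl, Finset.prod_eq_one fun j _ => by rw [hxy, if_pos rfl], mul_one]
    · rw [if_neg hστ]
      obtain ⟨j, hj⟩ : ∃ j, σ j ≠ τ j := by
        by_contra h3
        push Not at h3
        exact hστ (Equiv.ext h3)
      rw [Finset.prod_eq_zero (Finset.mem_univ j) (by rw [hxy, if_neg hj]), mul_zero]
  have h3 : W.tr (pow X n) (xpow ρ n * (detClass W n x * detClass W n y)) =
      (Fintype.card (Equiv.Perm (Fin (n + 1))) : W.K) * s := by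
    rw [detClass, detClass, Finset.sum_mul_sum, Finset.mul_sum, map_sum]
    have h4 : ∀ σ : Equiv.Perm (Fin (n + 1)), W.tr (pow X n) (xpow ρ n *
        ∑ τ : Equiv.Perm (Fin (n + 1)),
          (((Equiv.Perm.sign σ : ℤ) : W.K) • extFam W n fun j => x (σ j)) *
            (((Equiv.Perm.sign τ : ℤ) : W.K) • extFam W n fun j => y (τ j))) = s := by
      intro σ
      rw [Finset.mul_sum, map_sum, Fintype.sum_eq_single σ]
      · rw [smul_mul_smul_comm, mul_smul_comm, map_smul, h2, if_pos rfl, smul_eq_mul]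
        rcases Int.units_eq_one_or (Equiv.Perm.sign σ) with h | h <;> rw [h] <;> simp
      · intro τ hτ
        rw [smul_mul_smul_comm, mul_smul_comm, map_smul, h2, if_neg (Ne.symm hτ), smul_zero]
    rw [Finset.sum_congr rfl fun σ _ => h4 σ, Finset.sum_const, Finset.card_univ, nsmul_eq_mul]
  rw [h3]
  exact mul_ne_zero (by exact_mod_cast Fintype.card_ne_zero) hs

/-- Contraction of two equal factors. -/
lemma contract_two {Ξ : W.H Y} {e : ℕ} (hΞA : Ξ ∈ Alg W Y)
    {δ : W.H Y} (hδ : δ ∈ W.gr Y e) (ht : W.tr Y (Ξ * (δ * δ)) ≠ 0) {w : W.H Z}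
    (h : ext (ext w δ) δ ∈ Alg W ((Z.prod Y).prod Y)) : w ∈ Alg W Z := by
  have h1 := Alg.push (snd Y Z) (Alg.mul (Alg.map (fst Y Z) hΞA)
    (Alg.map (Obj.lift (Obj.lift (snd Y Z) (fst Y Z)) (fst Y Z)) h))
  have hδδ : δ * δ ∈ W.gr Y (2 * e) := by
    have := W.mul_mem hδ hδ
    rwa [← two_mul] at this
  have h2 : W.map (fst Y Z) Ξ * W.map (Obj.lift (Obj.lift (snd Y Z) (fst Y Z)) (fst Y Z))
      (ext (ext w δ) δ) = W.map (fst Y Z) (Ξ * (δ * δ)) * W.map (snd Y Z) w := by
    rw [ext, ext, map_mul, ← W.map_comp, ← W.map_comp, Obj.lift_fst, Obj.lift_snd, map_mul,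
      ← W.map_comp, ← W.map_comp, Obj.lift_fst, Obj.lift_snd, mul_assoc (W.map (snd Y Z) w),
      ← map_mul, ← W.even_comm (W.map_mem (fst Y Z) hδδ), ← mul_assoc, ← map_mul]
  rw [h2, W.push_snd] at h1
  have h3 := Submodule.smul_mem _ (W.tr Y (Ξ * (δ * δ)))⁻¹ h1
  rwa [smul_smul, inv_mul_cancel₀ ht, one_smul] at h3

/-- The square of the determinant line is algebraic if some positive power is. -/
lemma square_of_power {D : X.Cycles} (hD : X.IsCyc 1 D) (hHL : HardLefschetz W X D) {i : ℕ}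
    (hi : i ≤ X.dim) {n : ℕ} (y : Module.Basis (Fin (n + 1)) W.K (W.gr X i)) (m : ℕ)
    (h : extFam W m (fun _ => detClass W n fun j => (y j : W.H X)) ∈ Alg W (pow (pow X n) m)) :
    ext (detClass W n fun j => (y j : W.H X)) (detClass W n fun j => (y j : W.H X)) ∈
      Alg W ((pow X n).prod (pow X n)) := by
  obtain ⟨x, hxy⟩ := exists_dual hD hHL hi y
  set δ := detClass W n fun j => (y j : W.H X) with hδdef
  have hδ : δ ∈ W.gr (pow X n) (i * (n + 1)) := detClass_mem n fun b => (y b).2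
  have ht : W.tr (pow X n) (xpow (W.cl X D ^ (X.dim - i)) n * (δ * δ)) ≠ 0 := by
    have h1 := tr_det (W := W) (pow_gr hD (X.dim - i)) (fun b => (x b).2) (fun b => (y b).2)
      (fun a b => by rw [← lefForm_apply, hxy])
    obtain ⟨r, hr⟩ := det_change (W := W) y x
    rw [hr, ← hδdef, smul_mul_assoc, mul_smul_comm, map_smul, smul_eq_mul] at h1
    exact right_ne_zero_of_mul h1
  induction m using Nat.strong_induction_on with
  | _ m ih =>
    match m, ih, h with
    | 0, _, h => exact Alg.mul (Alg.map _ h) (Alg.map _ h)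
    | 1, _, h => exact h
    | m + 2, ih, h =>
      exact ih m (by omega) (contract_two (xpow_alg (pow_alg hD (X.dim - i)) n) hδ ht h)

theorem detPower_one_iff {i : ℕ} : DetPowerAlgebraic W X i 1 ↔ DetSquareAlgebraic W X i := by
  constructor
  · intro h n v hv
    obtain ⟨p, hp, h1⟩ := h n v hv
    obtain rfl : i * (n + 1) = p := by omega
    exact h1
  · intro h n v hv
    exact ⟨i * (n + 1), by ring, h n v hv⟩

theorem detPower_zero_iff {i : ℕ} : DetPowerAlgebraic W X i 0 ↔ DetAlgebraic W X i := by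
  constructor
  · intro h n v hv
    obtain ⟨p, hp, h1⟩ := h n v hv
    exact ⟨p, by omega, h1⟩
  · intro h n v hv
    obtain ⟨p, hp, h1⟩ := h n v hv
    exact ⟨p, by omega, h1⟩

theorem exists_power_iff {D : X.Cycles} (hD : X.IsCyc 1 D) (hHL : HardLefschetz W X D) {i : ℕ}
    (hi : i ≤ X.dim) : (∃ m, DetPowerAlgebraic W X i m) ↔ DetSquareAlgebraic W X i := by
  constructor
  · rintro ⟨m, hm⟩ n v hv
    obtain ⟨y, hy⟩ := exists_basis hv
    obtain rfl : (fun j => (y j : W.H X)) = v := funext hy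
    obtain ⟨p, -, h1⟩ := hm n _ hv
    refine alg_span (square_of_power hD hHL hi y m (span_le_alg h1)) ?_
    have h9 := detClass_mem (W := W) n (fun b => (y b).2)
    have h10 := W.mul_mem (W.map_mem (fst (pow X n) (pow X n)) h9)
      (W.map_mem (snd (pow X n) (pow X n)) h9)
    rwa [← two_mul] at h10
  · intro h
    exact ⟨1, detPower_one_iff.2 h⟩

end Pool.Agent.Helper70Ls
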