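import Pool.Agent.H914R2.KDefs
import Pool.Agent.W537.OneCycleDefs

/-!
# Determinant lines of the cohomology groups: definitions
-/

open CategoryTheory AlgebraicGeometry

universe u v

namespace Pool.Agent.Helper70Ls

open Pool.Agent.H914 Pool.Agent.H914.VarClass Pool.Agent.H914.VarClass.Obj
  Pool.Agent.H914.WeilCohomology Pool.Agent.W537

variable {k : Type u} [Field k] {𝒱 : VarClass k} {ops : CycleOps 𝒱}

/-- The power `X ^ (n + 1)` of the variety `X`. -/
noncomputable def pow (X : 𝒱.Obj) : ℕ → 𝒱.Obj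
  | 0 => X
  | n + 1 => (pow X n).prod X

/-- The external product `v 0 ⊠ v 1 ⊠ ... ⊠ v n` on `X ^ (n + 1)`. -/
noncomputable def extFam (W : WeilCohomology.{u, v} ops) {X : 𝒱.Obj} :
    ∀ n : ℕ, (Fin (n + 1) → W.H X) → W.H (pow X n)
  | 0, v => v 0
  | n + 1, v => W.map (fst (pow X n) X) (extFam W n fun j => v j.castSucc) *
      W.map (snd (pow X n) X) (v (Fin.last (n + 1)))

/-- The antisymmetrised external product `∑ σ, sgn(σ) v (σ 0) ⊠ v (σ 1) ⊠ ... ⊠ v (σ n)` on
`X ^ (n + 1)`, the sum over all permutations `σ` of the indices. If `v` is a basis of `H^i(X)`,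
this is a generator of the line `det H^i(X)` in `H^i(X)^{⊗ (n + 1)}`, which is contained in
`H^{i (n + 1)}(X ^ (n + 1))` by the Kunneth formula. -/
noncomputable def detClass (W : WeilCohomology.{u, v} ops) {X : 𝒱.Obj} (n : ℕ)
    (v : Fin (n + 1) → W.H X) : W.H (pow X n) :=
  ∑ σ : Equiv.Perm (Fin (n + 1)),
    ((Equiv.Perm.sign σ : ℤ) : W.K) • extFam W n fun j => v (σ j)

/-- The family `v` is a basis of `H^i(X)`. -/
def IsBasisOf (W : WeilCohomology.{u, v} ops) (X : 𝒱.Obj) (i n : ℕ)
    (v : Fin (n + 1) → W.H X) : Prop :=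
  LinearIndependent W.K v ∧ Submodule.span W.K (Set.range v) = W.gr X i

/-- The `(m + 1)`-st tensor power of the line `det H^i(X)` is spanned by a combination of classes of
cycles: for a basis `v` of `H^i(X)` with `n + 1` elements, the number `i (n + 1) (m + 1)` is even, equal
to `2 p`, and the class `δ ⊠ δ ⊠ ... ⊠ δ` (with `m + 1` factors) on `(X ^ (n + 1)) ^ (m + 1)`, where
`δ` is the antisymmetrised external product of `v`, is a linear combination of classes of cycles of
codimension `p`. (If `H^i(X) = 0` there is no condition.) -/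
def DetPowerAlgebraic (W : WeilCohomology.{u, v} ops) (X : 𝒱.Obj) (i m : ℕ) : Prop :=
  ∀ (n : ℕ) (v : Fin (n + 1) → W.H X), IsBasisOf W X i n v →
    ∃ p : ℕ, i * (n + 1) * (m + 1) = 2 * p ∧
      extFam W m (fun _ => detClass W n v) ∈ spanCycles W (pow (pow X n) m) p

/-- The number `tr(cl(z) c)` for a cycle `z` and a class `c`. -/
noncomputable def pairing (W : WeilCohomology.{u, v} ops) (Z : 𝒱.Obj) (z : Z.Cycles)
    (c : W.H Z) : W.K :=
  W.tr Z (W.cl Z z * c)

/-- The line `det H^(2d - i)(X) ⊗ det H^(2d - i)(X)`, where `d = dim X`, is not orthogonal to the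
classes of cycles: for a basis `v` of `H^(2d - i)(X)` with `n + 1` elements and its antisymmetrised
external product `δ`, there is a cycle `z` of codimension `i (n + 1)` on
`X ^ (n + 1) × X ^ (n + 1)` such that the trace of `cl(z) (δ ⊠ δ)` is not zero. (If
`H^(2d - i)(X) = 0` there is no condition.) -/
def DetNonorthogonal (W : WeilCohomology.{u, v} ops) (X : 𝒱.Obj) (i : ℕ) : Prop :=
  ∀ (n : ℕ) (v : Fin (n + 1) → W.H X), IsBasisOf W X (2 * X.dim - i) n v →
    ∃ z : (pow (pow X n) 1).Cycles, (pow (pow X n) 1).IsCyc (i * (n + 1)) z ∧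
      pairing W (pow (pow X n) 1) z (extFam W 1 fun _ => detClass W n v) ≠ 0

/-- The class `γ` on `X × X` induces the inverse of the isomorphism
`ξ ^ (d - i) : H^i(X) → H^(2d - i)(X)`, where `d = dim X` and `ξ` is the class of `D`, and the zero map
on `H^j(X)` for all `j ≠ 2d - i`. -/
def IsInverseClass (W : WeilCohomology.{u, v} ops) (X : 𝒱.Obj) (D : X.Cycles) (i : ℕ)
    (γ : W.H (X.prod X)) : Prop :=
  InverseOn (W.gr X) i (2 * X.dim - i) (lefPow W X D (X.dim - i)) (W.corr γ) ∧
    SupportedIn (W.gr X) (2 * X.dim - i) (W.corr γ)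

/-- The inverse of `ξ ^ (d - i) : H^i(X) → H^(2d - i)(X)`, extended by zero to the other degrees, is
induced by a linear combination `γ` of classes of cycles of codimension `i` on `X × X`. -/
def InverseAlgebraic (W : WeilCohomology.{u, v} ops) (X : 𝒱.Obj) (D : X.Cycles) (i : ℕ) : Prop :=
  ∃ γ ∈ spanCycles W (X.prod X) i, IsInverseClass W X D i γ

end Pool.Agent.Helper70Ls
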